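import Pool.Agent.Helper2.EG.Stmts

set_option autoImplicit false

/-! MP_861132_nt: a set which lies in small sets of residues has density zero. -/

namespace Pool.Agent.Helper2.EG

theorem st_DEN : ST_DEN := by
  intro hCNT B hB ε hε
  obtain ⟨K, m, A, hm, hcop, hA, hprod, C, hC, hBC⟩ := hB (ε / 4) (by linarith)
  obtain ⟨N1, hN1⟩ := hC (ε / 4) (by linarith)
  set a : ℕ := ∏ k ∈ Finset.range K, (A k).card with ha
  set M : ℕ := ∏ k ∈ Finset.range K, m k with hM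
  have hMpos : 0 < M := Finset.prod_pos (fun k hk => hm k (Finset.mem_range.1 hk))
  have hratio : (a : ℝ) / (M : ℝ) ≤ ε / 4 := by
    have : (a : ℝ) / (M : ℝ) = ∏ k ∈ Finset.range K, ((A k).card : ℝ) / (m k : ℝ) := by
      rw [Finset.prod_div_distrib, ha, hM]
      push_cast
      rfl
    rw [this]
    exact hprod
  obtain ⟨N2, hN2⟩ := exists_nat_ge ((a : ℝ) / (ε / 4))
  refine ⟨max N1 N2, fun N hN => ?_⟩
  have h1N : N1 ≤ N := le_trans (le_max_left _ _) hN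
  have h2N : N2 ≤ N := le_trans (le_max_right _ _) hN
  have hsub : B ∩ Set.Iic N ⊆ (C ∩ Set.Iic N) ∪ {n : ℕ | n ≤ N ∧ ∀ k < K, n % m k ∈ A k} := by
    rintro n ⟨hnB, hnN⟩
    rcases hBC n hnB with h | h
    · exact Or.inl ⟨h, hnN⟩
    · exact Or.inr ⟨hnN, h⟩
  have hfin : ((C ∩ Set.Iic N) ∪ {n : ℕ | n ≤ N ∧ ∀ k < K, n % m k ∈ A k}).Finite := by
    apply Set.Finite.subset (Set.finite_Iic N)
    rintro n (h | h)
    · exact h.2
    · exact h.1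
  have hcard : (B ∩ Set.Iic N).ncard ≤
      (C ∩ Set.Iic N).ncard + {n : ℕ | n ≤ N ∧ ∀ k < K, n % m k ∈ A k}.ncard :=
    (Set.ncard_le_ncard hsub hfin).trans (Set.ncard_union_le _ _)
  have hcnt := hCNT K m A hm hcop hA N
  have hcnt' : ({n : ℕ | n ≤ N ∧ ∀ k < K, n % m k ∈ A k}.ncard : ℝ) ≤
      (a : ℝ) * ((N : ℝ) / (M : ℝ) + 1) := by
    have h3 : ({n : ℕ | n ≤ N ∧ ∀ k < K, n % m k ∈ A k}.ncard : ℝ) ≤
        ((a * (N / M + 1) : ℕ) : ℝ) := by exact_mod_cast hcnt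
    refine h3.trans ?_
    push_cast
    have h4 : ((N / M : ℕ) : ℝ) ≤ (N : ℝ) / (M : ℝ) := Nat.cast_div_le
    have h5 : (0 : ℝ) ≤ (a : ℝ) := Nat.cast_nonneg _
    exact mul_le_mul_of_nonneg_left (by linarith) h5
  have hC' := hN1 N h1N
  have hNr : (0 : ℝ) ≤ (N : ℝ) := Nat.cast_nonneg _
  have hcardR : ((B ∩ Set.Iic N).ncard : ℝ) ≤
      ((C ∩ Set.Iic N).ncard : ℝ) + ({n : ℕ | n ≤ N ∧ ∀ k < K, n % m k ∈ A k}.ncard : ℝ) := by
    exact_mod_cast hcard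
  have h6 : (a : ℝ) * ((N : ℝ) / (M : ℝ) + 1) = (a : ℝ) / (M : ℝ) * N + a := by
    ring
  have h7 : (a : ℝ) / (M : ℝ) * N ≤ ε / 4 * N := mul_le_mul_of_nonneg_right hratio hNr
  have h8 : (a : ℝ) ≤ ε / 4 * N := by
    have h9 : (a : ℝ) / (ε / 4) ≤ (N : ℝ) := hN2.trans (by exact_mod_cast h2N)
    rw [div_le_iff₀ (by linarith)] at h9
    linarith
  have h10 : (0 : ℝ) ≤ ε * N := mul_nonneg hε.le hNr
  linarith

end Pool.Agent.Helper2.EG
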